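import Pool.Agent.Q279.TO.Parity

/-!
# Q1 of MP_0c59fa_nt

`T_o(q) = ∑_{m ≥ 0} q^{2m} (-q;q)_{2m} / (q;q^2)_{m+1}`, a power series over `ℤ`.
-/

set_option autoImplicit false

namespace Pool.Agent.Results.MP_0c59fa_nt.Parity

open PowerSeries
open scoped PowerSeries.WithPiTopology

/-- `T_o(q)`, the sum of the terms `q^{2m} (-q;q)_{2m} / (q;q^2)_{m+1}` (a convergent series in
`ℤ⟦q⟧`; `invOfUnit F 1` is the inverse of the power series `F` with constant term `1`). -/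
noncomputable def To : ℤ⟦X⟧ :=
  ∑' m : ℕ, X ^ (2 * m) * (∏ k ∈ Finset.range (2 * m), (1 + X ^ (k + 1))) *
    invOfUnit (∏ k ∈ Finset.range (m + 1), (1 - X ^ (2 * k + 1))) 1

/-- If `8n+9` is not represented by `x^2 + 2y^2`, then `t_o(n)` is even. -/
theorem result (n : ℕ) (h : ¬ ∃ x y : ℤ, 8 * (n : ℤ) + 9 = x ^ 2 + 2 * y ^ 2) :
    (2 : ℤ) ∣ coeff n To := by
  have h1 : To = Q279.TO.LL 0 := Q279.TO.tsum_term
  rw [h1]
  exact Q279.TO.coeff_LL h

end Pool.Agent.Results.MP_0c59fa_nt.Parity
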